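import Pool.Agent.J6H6.DF.Stm3
import Pool.Agent.J6H6.DF.PFORM
import Pool.Agent.J6H6.DF.Core

set_option autoImplicit false

/-! RS-BESS (helper29). -/

namespace Pool.Agent.J6H29.DF

open Pool.Agent.J6H6.DF Pool.Agent.J6H6.DF.PFORM

/-- sum of the absolute values of the coefficients -/
noncomputable def l1 {G : Type} (z : MonoidAlgebra ℤ G) : ℤ := ∑ g ∈ z.coeff.support, |z.coeff g|

theorem l1_nonneg {G : Type} (z : MonoidAlgebra ℤ G) : 0 ≤ l1 z :=
  Finset.sum_nonneg fun _ _ => abs_nonneg _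

theorem coeff_map {G Q : Type} [Group G] [Group Q] [DecidableEq Q] (π : G →* Q)
    (z : MonoidAlgebra ℤ G) (q : Q) :
    (MonoidAlgebra.mapDomainRingHom ℤ π z).coeff q =
      ∑ g ∈ z.coeff.support, if π g = q then z.coeff g else 0 := by
  have h : (MonoidAlgebra.mapDomainRingHom ℤ π z).coeff = Finsupp.mapDomain π z.coeff := by
    simp
  rw [h, Finsupp.mapDomain, Finsupp.sum, Finsupp.finsetSum_apply]
  refine Finset.sum_congr rfl fun g _ => ?_
  rw [Finsupp.single_apply]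

theorem sum_le {G Q : Type} [Group G] [Group Q] (π : G →* Q) (z : MonoidAlgebra ℤ G)
    (F : Finset Q) : ∑ q ∈ F, |(MonoidAlgebra.mapDomainRingHom ℤ π z).coeff q| ≤ l1 z := by
  classical
  have h1 : ∀ q ∈ F, |(MonoidAlgebra.mapDomainRingHom ℤ π z).coeff q| ≤
      ∑ g ∈ z.coeff.support, if π g = q then |z.coeff g| else 0 := by
    intro q _
    rw [coeff_map]
    refine (Finset.abs_sum_le_sum_abs _ _).trans (Finset.sum_le_sum fun g _ => ?_)
    split_ifs
    · exact le_refl _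
    · simp
  refine (Finset.sum_le_sum h1).trans ?_
  rw [Finset.sum_comm]
  refine Finset.sum_le_sum fun g _ => ?_
  rw [Finset.sum_ite_eq]
  split_ifs
  · exact le_refl _
  · exact abs_nonneg _

theorem t_BESS : S_BESS := by
  classical
  intro G _ n A C hAC hCA
  set K : ℤ := ∑ i : Fin n, ∑ j : Fin n, l1 (C i j) with hK
  have hK0 : 0 ≤ K := Finset.sum_nonneg fun _ _ => Finset.sum_nonneg fun _ _ => l1_nonneg _
  refine ⟨K.toNat, ?_⟩
  intro Q _ π hherm hpos x F
  rw [Int.toNat_of_nonneg hK0]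
  set f := MonoidAlgebra.mapDomainRingHom ℤ π with hf
  set A' := A.map f with hA'
  set C' := C.map f with hC'
  have h1 : C' * A' = 1 := by
    rw [hC', hA', ← Matrix.map_mul, hCA]
    exact Matrix.map_one _ (map_zero f) (map_one f)
  obtain ⟨B, hB1, hB2, hB3, hB4, hB5⟩ := t_FORM Q n A' hherm
  have hB : Pos B := ⟨hB2, fun y hy => by rw [hB1]; exact hpos y hy⟩
  have h2 : ∀ (i : Fin n) (y : Fin n → MonoidAlgebra ℤ Q), herm A' (C' i) y = bar (y i) := by
    intro i y
    unfold herm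
    rw [Finset.sum_comm]
    have h3 : ∀ j, ∑ k, C' i k * A' k j * bar (y j) = (1 : Matrix (Fin n) (Fin n) (MonoidAlgebra ℤ Q)) i j * bar (y j) := by
      intro j
      rw [← h1, Matrix.mul_apply, Finset.sum_mul]
    rw [Finset.sum_congr rfl fun j _ => h3 j, Finset.sum_eq_single i]
    · rw [Matrix.one_apply_eq, one_mul]
    · intro j _ hj
      rw [Matrix.one_apply_ne (Ne.symm hj), zero_mul]
    · intro h
      exact absurd (Finset.mem_univ _) h
  have h3 : ∀ (i : Fin n) (y : Fin n → MonoidAlgebra ℤ Q), herm A' y (C' i) = y i := by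
    intro i y
    rw [← bar_herm A' hherm, h2, bar_bar]
  have h4 : ∀ (s : Q × Fin n) (y : Fin n → MonoidAlgebra ℤ Q),
      B (tr s.1 (C' s.2)) y = (y s.2).coeff s.1 := by
    intro s y
    rw [hB2, hB4, h3]
  have h5 : ∀ (s : Q × Fin n) (F : Finset (Q × Fin n)),
      ∑ t ∈ F, |B (tr s.1 (C' s.2)) (tr t.1 (C' t.2))| ≤ K := by
    intro s F
    have e1 : ∀ t ∈ F, |B (tr s.1 (C' s.2)) (tr t.1 (C' t.2))| =
        |(C' s.2 t.2).coeff (s.1⁻¹ * t.1)| := by
      intro t _
      rw [hB2, h4, tr, coeff_left]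
    rw [Finset.sum_congr rfl e1]
    have hinj : Function.Injective (fun t : Q × Fin n => ((s.1⁻¹ * t.1, t.2) : Q × Fin n)) := by
      rintro ⟨a, i⟩ ⟨b, j⟩ h
      simp only [Prod.mk.injEq, mul_right_inj] at h
      exact Prod.ext h.1 h.2
    have e2 : ∑ t ∈ F, |(C' s.2 t.2).coeff (s.1⁻¹ * t.1)| =
        ∑ u ∈ F.image (fun t : Q × Fin n => ((s.1⁻¹ * t.1, t.2) : Q × Fin n)),
          |(C' s.2 u.2).coeff u.1| := by
      rw [Finset.sum_image (fun a _ b _ h => hinj h)]
    rw [e2]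
    set F' := F.image (fun t : Q × Fin n => ((s.1⁻¹ * t.1, t.2) : Q × Fin n)) with hF'
    have e3 : F' ⊆ (F'.image Prod.fst) ×ˢ (Finset.univ : Finset (Fin n)) := by
      intro u hu
      rw [Finset.mem_product]
      exact ⟨Finset.mem_image_of_mem _ hu, Finset.mem_univ _⟩
    refine (Finset.sum_le_sum_of_subset_of_nonneg e3 fun _ _ _ => abs_nonneg _).trans ?_
    rw [Finset.sum_product_right]
    have e4 : ∑ j : Fin n, ∑ q ∈ F'.image Prod.fst, |(C' s.2 j).coeff q| ≤
        ∑ j : Fin n, l1 (C s.2 j) :=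
      Finset.sum_le_sum fun j _ => sum_le π (C s.2 j) _
    refine e4.trans ?_
    exact Finset.single_le_sum (f := fun i => ∑ j : Fin n, l1 (C i j))
      (fun i _ => Finset.sum_nonneg fun _ _ => l1_nonneg _) (Finset.mem_univ s.2)
  have h6 := hB.bessel (fun s : Q × Fin n => tr s.1 (C' s.2)) hK0 h5 x F
  rw [hB1] at h6
  refine le_trans (le_of_eq ?_) h6
  refine Finset.sum_congr rfl fun s _ => ?_
  rw [h4]

end Pool.Agent.J6H29.DF
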